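import Mathlib
import Pool.Agent.Q267.DV.Fin3

/-!
# Generalized Wagstaff numbers in almost every real base: infinitely many prime integer parts

For real `x > 1` and odd `n` let `Q x n = (x ^ n + 1) / (x + 1)`.  For every positive `C ^ 2` function `A` on
`(1, ∞)`, every set `S` of odd numbers with divergent sum of `1 / n` (for example all odd numbers, or
the odd primes) and almost every base `x > 1` the integer part of `A x * Q x n` is prime for infinitely many
`n ∈ S`.  If the sum converges, then for almost every `x > 1` it is prime for only finitely many `n ∈ S`.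
-/

set_option autoImplicit false

namespace Pool.Agent.Results.MP_ce8d0c_nt.EveryDivergentIndexSet

open MeasureTheory

/-- The generalized Wagstaff number to the real base `x`. -/
noncomputable def Q (x : ℝ) (n : ℕ) : ℝ := (x ^ n + 1) / (x + 1)

lemma Q_eq (A : ℝ → ℝ) (x : ℝ) {n : ℕ} (hn : Odd n) :
    A x / (x + 1) * (x ^ n - (-1) ^ n) = A x * Q x n := by
  unfold Q
  rw [hn.neg_one_pow]
  ring

lemma set_eq {S : Set ℕ} (hodd : ∀ n ∈ S, Odd n) (A : ℝ → ℝ) (x : ℝ) :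
    {n : ℕ | n ∈ S ∧ (⌊A x / (x + 1) * (x ^ n - (-1) ^ n)⌋₊).Prime} =
      {n : ℕ | n ∈ S ∧ (⌊A x * Q x n⌋₊).Prime} := by
  ext n
  constructor
  · rintro ⟨h1, h2⟩
    rw [Q_eq A x (hodd n h1)] at h2
    exact ⟨h1, h2⟩
  · rintro ⟨h1, h2⟩
    rw [← Q_eq A x (hodd n h1)] at h2
    exact ⟨h1, h2⟩

/-- The dichotomy: infinitely many prime values for almost every base if and only if the sum of `1 / n`
over the set of odd exponents diverges. -/
theorem result :
    (∀ A : ℝ → ℝ, ContDiffOn ℝ 2 A (Set.Ioi 1) → (∀ x, 1 < x → 0 < A x) →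
      ∀ S : Set ℕ, (∀ n ∈ S, Odd n) → (¬ Summable fun n : S => 1 / ((n : ℕ) : ℝ)) →
        ∀ᵐ x : ℝ, 1 < x → {n : ℕ | n ∈ S ∧ (⌊A x * Q x n⌋₊).Prime}.Infinite) ∧
    (∀ A : ℝ → ℝ, ContDiffOn ℝ 2 A (Set.Ioi 1) → (∀ x, 1 < x → 0 < A x) →
      ∀ S : Set ℕ, (∀ n ∈ S, Odd n) → (Summable fun n : S => 1 / ((n : ℕ) : ℝ)) →
        ∀ᵐ x : ℝ, 1 < x → {n : ℕ | n ∈ S ∧ (⌊A x * Q x n⌋₊).Prime}.Finite) := by
  have e : max 1 |(-1 : ℝ)| = 1 := by simp
  have hd : ∀ A : ℝ → ℝ, ContDiffOn ℝ 2 A (Set.Ioi 1) →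
      ContDiffOn ℝ 2 (fun x => A x / (x + 1)) (Set.Ioi (max 1 |(-1 : ℝ)|)) := fun A hA => by
    rw [e]
    exact hA.div (by fun_prop) fun x hx => by
      have : (1 : ℝ) < x := hx
      linarith
  have hp : ∀ A : ℝ → ℝ, (∀ x, 1 < x → 0 < A x) → ∀ x, max 1 |(-1 : ℝ)| < x → 0 < A x / (x + 1) :=
    fun A hA x hx => by
      rw [e] at hx
      exact div_pos (hA x hx) (by linarith)
  refine ⟨fun A hA hA0 S hodd hS => ?_, fun A hA hA0 S hodd hS => ?_⟩
  · filter_upwards [Pool.Agent.Q267.DV.pow_inf (-1) (hd A hA) (hp A hA0) hS] with x hx h1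
    rw [e] at hx
    have h2 := Pool.Agent.Q267.DV.inf_of (hx h1)
    rwa [set_eq hodd A x] at h2
  · filter_upwards [Pool.Agent.Q267.DV.pow_fin (-1) (hd A hA) (hp A hA0) hS] with x hx h1
    rw [e] at hx
    have h2 := Pool.Agent.Q267.DV.fin_of (hx h1)
    rwa [set_eq hodd A x] at h2

end Pool.Agent.Results.MP_ce8d0c_nt.EveryDivergentIndexSet
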