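import Mathlib
import Pool.Agent.TH888.R.Base
import Pool.Agent.H447R2.ML.Spec

set_option autoImplicit false

/-!
# Generalized Wagstaff numbers: the law for every fixed base, with error term and sets of exponents

For an integer base `b ≥ 2`, a real `β > 0` and a prime `p` let `W b β p` be the `p`-rough part (the
product, with multiplicity, of the prime factors larger than `p`) of `⌊β b ^ p⌋ + 1`.  At the
amplitude `β = 1 / (b + 1)` the number `W b β p` is `(b ^ p + 1) / (b + 1)` itself, for every odd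
prime `p` which does not divide `b + 1`.  For a set `S` let `M b S β n` be the number of primes
`p ≤ n` in `S` with `W b β p` prime, and let `V S n` be the sum of `log p / p` over the primes
`p ≤ n` in `S`.  We prove that for almost every `β > 0`, simultaneously for all bases `b ≥ 2`, the
number of primes `p ≤ n` with `W b β p` prime is
`(e ^ γ / log b) log n + O((log n) ^ (1/2) (log log n) ^ (5/2))`; that for every set `S` and almost
every `β > 0`, simultaneously for all bases, there are infinitely many such primes `p` in `S` if and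
only if `V S n` is unbounded; and that in this case
`M b S β n = (e ^ γ / log b) V S n + O((V L) ^ (1/2) (log (V L)) ^ 2)` with `V = V S n` and
`L = log log n`.
-/

namespace Pool.Agent.Results.MP_ce8d0c_nt.FixedBaseSets

open Filter Topology MeasureTheory Asymptotics

/-- The product, with multiplicity, of the prime factors of `m` that are larger than `p`. -/
def roughPart (p m : ℕ) : ℕ := (m.primeFactorsList.filter (fun r => p < r)).prod

/-- The `p`-rough part of `⌊β b ^ p⌋ + 1`. -/
noncomputable def W (b : ℕ) (β : ℝ) (p : ℕ) : ℕ := roughPart p (⌊β * (b : ℝ) ^ p⌋₊ + 1)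

open Classical in
/-- The number of primes `p ≤ n` in the set `S` for which `W b β p` is prime. -/
noncomputable def M (b : ℕ) (S : Set ℕ) (β : ℝ) (n : ℕ) : ℕ :=
  ((Finset.range (n + 1)).filter (fun p => p.Prime ∧ p ∈ S ∧ (W b β p).Prime)).card

open Classical in
/-- The sum of `log p / p` over the primes `p ≤ n` in the set `S`. -/
noncomputable def V (S : Set ℕ) (n : ℕ) : ℝ :=
  ∑ p ∈ (Finset.range (n + 1)).filter (fun p => p.Prime ∧ p ∈ S), Real.log p / p

/-- The law with error term for all primes and for the primes in `S`, and the dichotomy. -/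
structure Law (b : ℕ) (β : ℝ) (S : Set ℕ) : Prop where
  /-- the number of all primes `p ≤ n` with `W b β p` prime -/
  all : (fun n : ℕ => (M b Set.univ β n : ℝ) -
      Real.exp Real.eulerMascheroniConstant / Real.log b * Real.log n) =O[atTop]
    (fun n : ℕ => Real.sqrt (Real.log n) * (Real.log (Real.log n)) ^ ((5 : ℝ) / 2))
  /-- the number of primes `p ≤ n` in `S` with `W b β p` prime -/
  sets : Tendsto (V S) atTop atTop → (fun n : ℕ => (M b S β n : ℝ) -
      Real.exp Real.eulerMascheroniConstant / Real.log b * V S n) =O[atTop]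
    (fun n : ℕ => Real.sqrt (V S n * Real.log (Real.log n)) *
      (Real.log (V S n * Real.log (Real.log n))) ^ 2)
  /-- there are infinitely many in `S` if and only if the weight of `S` is infinite -/
  dichotomy : {p : ℕ | p.Prime ∧ p ∈ S ∧ (W b β p).Prime}.Infinite ↔ Tendsto (V S) atTop atTop

lemma V_eq (S : Set ℕ) : V S = Pool.Agent.TH888.R.VS S := by
  classical
  funext n
  unfold V Pool.Agent.TH888.R.VS
  rw [Finset.sum_filter]
  refine Finset.sum_congr rfl fun p _ => ?_
  by_cases h : p.Prime ∧ p ∈ S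
  · rw [if_pos h, if_pos ⟨h.2, h.1⟩]
    rfl
  · rw [if_neg h, if_neg fun h1 => h ⟨h1.2, h1.1⟩]

lemma M_eq (b : ℕ) (S : Set ℕ) (β : ℝ) (n : ℕ) : M b S β n = Pool.Agent.TH888.R.cS S
    (fun p => ⌊β * (b : ℝ) ^ p⌋₊ + 1) n := by
  classical
  unfold M Pool.Agent.TH888.R.cS
  rfl

/-- the law from the library statement -/
lemma law_of {b : ℕ} {β : ℝ} {S : Set ℕ}
    (h1 : Pool.Agent.TH888.R.Pt (fun p => ⌊β * (b : ℝ) ^ p⌋₊ + 1)
      (Real.exp Real.eulerMascheroniConstant / Real.log b) Set.univ)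
    (h2 : Pool.Agent.TH888.R.Pt (fun p => ⌊β * (b : ℝ) ^ p⌋₊ + 1)
      (Real.exp Real.eulerMascheroniConstant / Real.log b) S) : Law b β S := by
  refine ⟨?_, fun hS => ?_, ?_⟩
  · obtain ⟨B, hB, h⟩ := h1.law Pool.Agent.TH888.R.VS_univ_tendsto
    simp only [M_eq]
    exact Pool.Agent.TH888.R.bigO_all hB h
  · rw [V_eq] at hS ⊢
    obtain ⟨B, hB, h⟩ := h2.law hS
    simp only [M_eq]
    exact Pool.Agent.TH888.R.bigO_set hB hS h
  · rw [V_eq]
    constructor
    · intro hi
      by_contra hn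
      exact hi (h2.fin hn)
    · exact h2.inf

/-- The special points. -/
lemma special {b : ℕ} (hb : 2 ≤ b) {p : ℕ} (hp : p.Prime) (hp2 : p ≠ 2) (hpd : ¬ p ∣ b + 1) :
    W b (1 / ((b : ℝ) + 1)) p * (b + 1) = b ^ p + 1 := by
  have hodd : Odd p := hp.odd_of_ne_two hp2
  obtain ⟨M, hM⟩ : b + 1 ∣ b ^ p + 1 := by
    have := hodd.nat_add_dvd_pow_add_pow b 1
    rwa [one_pow] at this
  have hMr : ((M : ℝ)) * (b + 1) = (b : ℝ) ^ p + 1 := by
    have : ((b : ℝ) ^ p + 1) = (((b ^ p + 1 : ℕ)) : ℝ) := by push_cast; ring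
    rw [this, hM]
    push_cast; ring
  have hb0 : (0 : ℝ) < (b : ℝ) + 1 := by positivity
  have hb2 : (2 : ℝ) ≤ b := by exact_mod_cast hb
  have hM0 : 1 ≤ M := by
    rcases Nat.eq_zero_or_pos M with h | h
    · rw [h] at hM
      simp at hM
    · exact h
  have hfl : ⌊1 / ((b : ℝ) + 1) * (b : ℝ) ^ p⌋₊ + 1 = M := by
    have h0 : ⌊1 / ((b : ℝ) + 1) * (b : ℝ) ^ p⌋₊ = M - 1 := by
      rw [Nat.floor_eq_iff (by positivity), Nat.cast_sub hM0, Nat.cast_one]
      have e : 1 / ((b : ℝ) + 1) * (b : ℝ) ^ p = M - 1 / ((b : ℝ) + 1) := by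
        field_simp
        linarith
      rw [e]
      have h1 : 1 / ((b : ℝ) + 1) < 1 := by
        rw [div_lt_one hb0]; linarith
      have h2 : 0 < 1 / ((b : ℝ) + 1) := by positivity
      constructor <;> linarith
    omega
  have hr := Pool.Agent.H447R2.ML.rough_quot (a := (b : ℤ)) (b := -1)
    (IsCoprime.neg_right isCoprime_one_right) (by omega) (by omega) hp
    (by
      intro h
      apply hpd
      have : ((p : ℕ) : ℤ) ∣ ((b + 1 : ℕ) : ℤ) := by push_cast; simpa using h
      exact_mod_cast this) (x := (M : ℝ)) (by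
        push_cast
        rw [hodd.neg_one_pow]
        have hne : (b : ℝ) - -1 ≠ 0 := by linarith
        field_simp
        linarith)
  rw [Nat.floor_natCast] at hr
  have hgeom : (∑ i ∈ Finset.range p, (b : ℤ) ^ i * (-1) ^ (p - 1 - i)) * ((b : ℤ) - -1) =
      (b : ℤ) ^ p - (-1) ^ p := (Commute.all (b : ℤ) (-1)).geom_sum₂_mul p
  rw [← hr, hodd.neg_one_pow] at hgeom
  unfold W
  rw [hfl]
  have h4 : ((roughPart p M : ℕ) : ℤ) * ((b : ℤ) + 1) = (b : ℤ) ^ p + 1 := by
    have h5 : (roughPart p M : ℤ) = (Pool.Agent.H305R2.roughPart p M : ℤ) := rfl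
    rw [h5]
    linarith
  exact_mod_cast h4

lemma pt (b : ℕ) (hb : 2 ≤ b) (S : Set ℕ) : ∀ᵐ β : ℝ, 0 < β →
    Pool.Agent.TH888.R.Pt (fun p => ⌊β * (b : ℝ) ^ p⌋₊ + 1)
      (Real.exp Real.eulerMascheroniConstant / Real.log b) S := by
  have hb1 : (1 : ℝ) < (b : ℝ) := by exact_mod_cast (by omega : 1 < b)
  have hg : ∀ p : ℕ, |(fun _ : ℕ => (1 : ℝ)) p| ≤ 1 * (1 : ℝ) ^ p := by
    intro p
    simp
  have key := Pool.Agent.TH888.R.pt_floor (α := (b : ℝ)) (κ := 1) (C := 1)
    (g := fun _ => 1) hb1 zero_le_one hb1 hg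
    (Pool.Agent.TH888.R.near_base hb zero_le_one hb1 hg) S
  filter_upwards [key] with β hβ h0
  have h := hβ h0
  have e : (fun p : ℕ => ⌊β * (b : ℝ) ^ p + 1⌋₊) = (fun p : ℕ => ⌊β * (b : ℝ) ^ p⌋₊ + 1) := by
    funext p
    exact Nat.floor_add_one (by positivity)
  rw [e] at h
  exact h

/-- For every set `S` and almost every amplitude, simultaneously for all bases, the law holds with a
square root error term, with the dichotomy; at the amplitude `1 / (b + 1)` the values are the
generalized Wagstaff numbers. -/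
theorem result :
    (∀ b : ℕ, 2 ≤ b → ∀ p : ℕ, p.Prime → p ≠ 2 → ¬ p ∣ b + 1 →
      W b (1 / ((b : ℝ) + 1)) p * (b + 1) = b ^ p + 1) ∧
    (∀ S : Set ℕ, ∀ᵐ β : ℝ, 0 < β → ∀ b : ℕ, 2 ≤ b → Law b β S) := by
  refine ⟨fun b hb p hp hp2 hpd => special hb hp hp2 hpd, fun S => ?_⟩
  have h : ∀ (S : Set ℕ) (b : ℕ), ∀ᵐ β : ℝ, 2 ≤ b → 0 < β →
      Pool.Agent.TH888.R.Pt (fun p => ⌊β * (b : ℝ) ^ p⌋₊ + 1)
        (Real.exp Real.eulerMascheroniConstant / Real.log b) S := by
    intro S b
    by_cases hc : 2 ≤ b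
    · filter_upwards [pt b hc S] with β hβ _
      exact hβ
    · exact Eventually.of_forall fun β h1 => absurd h1 hc
  filter_upwards [ae_all_iff.2 (h Set.univ), ae_all_iff.2 (h S)] with β hβ hβ' h0 b hb
  exact law_of (hβ b hb h0) (hβ' b hb h0)

end Pool.Agent.Results.MP_ce8d0c_nt.FixedBaseSets
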