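import Mathlib
import Pool.Agent.Q43.BA.Low
import Pool.Agent.W66.LU

set_option autoImplicit false

/-!
# Generalized Wagstaff numbers in a fixed base and the last digits of almost every b-adic unit

Fix a base `b ≥ 2`.  For a sequence `d` of digits in base `b` (a `b`-adic integer with the digits
`d 0`, `d 1`, ... read from the right) and a prime `p` let `W b d p` be the `p`-rough part (the
product, with multiplicity, of the prime factors larger than `p`) of the integer with the last `p`
digits `d (p - 1) ... d 1 d 0`.  For the `b`-adic integer `1 / (b + 1)`, whose digits are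
`1, b - 1, 0, b - 1, 0, ...` from the right, this is the number `(b ^ p + 1) / (b + 1)` itself, for
every odd prime `p` which does not divide `b + 1`.  For a set `S` let `M b S d n` be the number of
primes `p ≤ n` in `S` with `W b d p` prime, and let `V S n` be the sum of `log p / p` over the primes
`p ≤ n` in `S`.  The digits are independent and uniform.  We prove that for every base `b ≥ 2` and
almost every `d` with `d 0` prime to `b` the number of primes `p ≤ n` with `W b d p` prime is
`(e ^ γ / log b) log n + O((log n) ^ (1/2) (log log n) ^ (5/2))`; that for every set `S` and almost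
every such `d` there are infinitely many such primes `p` in `S` if and only if `V S n` is unbounded;
and that in this case `M b S d n = (e ^ γ / log b) V S n + O((V L) ^ (1/2) (log (V L)) ^ 2)` with
`V = V S n` and `L = log log n`.
-/

namespace Pool.Agent.Results.MP_ce8d0c_nt.LastDigits

open Filter Topology MeasureTheory Asymptotics

/-- The product, with multiplicity, of the prime factors of `m` that are larger than `p`. -/
def roughPart (p m : ℕ) : ℕ := (m.primeFactorsList.filter (fun r => p < r)).prod

/-- The integer with the last `p` digits `d (p - 1) ... d 1 d 0` in base `b`. -/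
def D (b : ℕ) (d : ℕ → Fin b) (p : ℕ) : ℕ := ∑ i ∈ Finset.range p, (d i : ℕ) * b ^ i

/-- The `p`-rough part of the integer with the last `p` digits of `d`. -/
def W (b : ℕ) (d : ℕ → Fin b) (p : ℕ) : ℕ := roughPart p (D b d p)

/-- The digits `1, b - 1, 0, b - 1, 0, ...`, from the right, of the `b`-adic integer
`1 / (b + 1)`. -/
def wag (b : ℕ) (hb : 2 ≤ b) (i : ℕ) : Fin b :=
  if i = 0 then ⟨1, hb⟩ else if i % 2 = 1 then ⟨b - 1, by omega⟩ else ⟨0, by omega⟩

open Classical in
/-- The number of primes `p ≤ n` in the set `S` for which `W b d p` is prime. -/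
noncomputable def M (b : ℕ) (S : Set ℕ) (d : ℕ → Fin b) (n : ℕ) : ℕ :=
  ((Finset.range (n + 1)).filter (fun p => p.Prime ∧ p ∈ S ∧ (W b d p).Prime)).card

open Classical in
/-- The sum of `log p / p` over the primes `p ≤ n` in the set `S`. -/
noncomputable def V (S : Set ℕ) (n : ℕ) : ℝ :=
  ∑ p ∈ (Finset.range (n + 1)).filter (fun p => p.Prime ∧ p ∈ S), Real.log p / p

/-- The law with error term for all primes and for the primes in `S`, and the dichotomy. -/
structure Law (b : ℕ) (d : ℕ → Fin b) (S : Set ℕ) : Prop where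
  /-- the number of all primes `p ≤ n` with `W b d p` prime -/
  all : (fun n : ℕ => (M b Set.univ d n : ℝ) -
      Real.exp Real.eulerMascheroniConstant / Real.log b * Real.log n) =O[atTop]
    (fun n : ℕ => Real.sqrt (Real.log n) * (Real.log (Real.log n)) ^ ((5 : ℝ) / 2))
  /-- the number of primes `p ≤ n` in `S` with `W b d p` prime -/
  sets : Tendsto (V S) atTop atTop → (fun n : ℕ => (M b S d n : ℝ) -
      Real.exp Real.eulerMascheroniConstant / Real.log b * V S n) =O[atTop]
    (fun n : ℕ => Real.sqrt (V S n * Real.log (Real.log n)) *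
      (Real.log (V S n * Real.log (Real.log n))) ^ 2)
  /-- there are infinitely many in `S` if and only if the weight of `S` is infinite -/
  dichotomy : {p : ℕ | p.Prime ∧ p ∈ S ∧ (W b d p).Prime}.Infinite ↔ Tendsto (V S) atTop atTop

lemma V_eq (S : Set ℕ) : V S = Pool.Agent.TH888.R.VS S := by
  classical
  funext n
  unfold V Pool.Agent.TH888.R.VS
  rw [Finset.sum_filter]
  refine Finset.sum_congr rfl fun p _ => ?_
  by_cases h : p.Prime ∧ p ∈ S
  · rw [if_pos h, if_pos ⟨h.2, h.1⟩]
    rfl
  · rw [if_neg h, if_neg fun h1 => h ⟨h1.2, h1.1⟩]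

lemma M_eq (b : ℕ) (d : ℕ → Fin b) (S : Set ℕ) (n : ℕ) :
    M b S d n = Pool.Agent.TH888.R.cS S (fun p => Pool.Agent.W66L.dsum b p d) n := by
  classical
  unfold M Pool.Agent.TH888.R.cS
  rfl

/-- the law from the library statement -/
lemma law_of {b : ℕ} {d : ℕ → Fin b} {S : Set ℕ}
    (h1 : Pool.Agent.TH888.R.Pt (fun p => Pool.Agent.W66L.dsum b p d)
      (Real.exp Real.eulerMascheroniConstant / Real.log b) Set.univ)
    (h2 : Pool.Agent.TH888.R.Pt (fun p => Pool.Agent.W66L.dsum b p d)
      (Real.exp Real.eulerMascheroniConstant / Real.log b) S) : Law b d S := by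
  refine ⟨?_, fun hS => ?_, ?_⟩
  · obtain ⟨B, hB, h⟩ := h1.law Pool.Agent.TH888.R.VS_univ_tendsto
    simp only [M_eq]
    exact Pool.Agent.TH888.R.bigO_all hB h
  · rw [V_eq] at hS ⊢
    obtain ⟨B, hB, h⟩ := h2.law hS
    simp only [M_eq]
    exact Pool.Agent.TH888.R.bigO_set hB hS h
  · rw [V_eq]
    constructor
    · intro hi
      by_contra hn
      exact hi (h2.fin hn)
    · exact h2.inf

lemma wag_odd {b : ℕ} (hb : 2 ≤ b) (k : ℕ) : (wag b hb (2 * k + 1) : ℕ) = b - 1 := by
  unfold wag
  rw [if_neg (by omega), if_pos (by omega)]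

lemma wag_even {b : ℕ} (hb : 2 ≤ b) (k : ℕ) : (wag b hb (2 * k + 2) : ℕ) = 0 := by
  unfold wag
  rw [if_neg (by omega), if_neg (by omega)]

lemma D_wag {b : ℕ} (hb : 2 ≤ b) (k : ℕ) :
    D b (wag b hb) (2 * k + 1) * (b + 1) = b ^ (2 * k + 1) + 1 := by
  induction k with
  | zero =>
    unfold D wag
    simp
  | succ k ih =>
    have e : D b (wag b hb) (2 * (k + 1) + 1) =
        D b (wag b hb) (2 * k + 1) + (b - 1) * b ^ (2 * k + 1) := by
      unfold D
      rw [show 2 * (k + 1) + 1 = 2 * k + 1 + 1 + 1 by ring, Finset.sum_range_succ,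
        Finset.sum_range_succ, wag_odd hb k, show 2 * k + 1 + 1 = 2 * k + 2 by ring, wag_even hb k]
      ring
    rw [e, add_mul, ih]
    obtain ⟨c, rfl⟩ := Nat.exists_eq_add_of_le hb
    have h1 : 2 + c - 1 = c + 1 := by omega
    rw [h1]
    ring

/-- In every base `b ≥ 2`: the values at the digits of `1 / (b + 1)` are the generalized Wagstaff
numbers, and for every set `S` almost every sequence of digits with last digit prime to `b` obeys the
law with a square root error term and the dichotomy. -/
theorem result (b : ℕ) [NeZero b] (hb : 2 ≤ b) :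
    (∀ p : ℕ, p.Prime → p ≠ 2 → ¬ p ∣ b + 1 → W b (wag b hb) p = (b ^ p + 1) / (b + 1)) ∧
    (∀ S : Set ℕ, ∀ᵐ d ∂(Measure.infinitePi
        (fun _ : ℕ => ProbabilityTheory.uniformOn (Set.univ : Set (Fin b)))),
      Nat.Coprime (d 0 : ℕ) b → Law b d S) := by
  refine ⟨fun p hp hp2 hpd => ?_, fun S => ?_⟩
  · obtain ⟨k, hk⟩ := hp.odd_of_ne_two hp2
    have h1 : D b (wag b hb) p * (b + 1) = b ^ p + 1 := by
      rw [hk]
      exact D_wag hb k
    have h2 : (b ^ p + 1) / (b + 1) = D b (wag b hb) p := by
      rw [← h1]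
      exact Nat.mul_div_cancel _ (by omega)
    have h3 : W b (wag b hb) p = Pool.Agent.H305R2.roughPart p (D b (wag b hb) p) := rfl
    rw [h3, h2]
    exact Pool.Agent.W66L.rough_wagstaff hb hp hp2 hpd h1
  · have h := fun S => Pool.Agent.Q43.BA.pt_full (μ := Pool.Agent.W66L.digitMeasure b)
      hb (Pool.Agent.W66L.full_digits b) S
    have h' := h Set.univ
    have h'' := h S
    unfold Pool.Agent.W66L.digitMeasure at h' h''
    filter_upwards [h', h''] with d h1 h2 hu
    have hc : (Pool.Agent.W66L.dsum b 1 d).Coprime b := by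
      unfold Pool.Agent.W66L.dsum
      simpa using hu
    exact law_of (h1 hc) (h2 hc)

end Pool.Agent.Results.MP_ce8d0c_nt.LastDigits
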