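import Mathlib
import Pool.Agent.Q43.UN.Fin
import Pool.Agent.H447R2.ML.Spec

set_option autoImplicit false

/-!
# Generalized Wagstaff numbers: the law in all residue classes, uniformly in the modulus

For a sequence `s` of positive integers and a prime `p` let `W s p` be the `p`-rough part (the
product, with multiplicity, of the prime factors larger than `p`) of `s p`, and let `M s q a n` be the
number of primes `p ≤ n` with `p ≡ a (mod q)` and `W s p` prime.  We consider the sequences
`⌊β b ^ p⌋ + 1` (integer base `b ≥ 2`, real amplitude `β > 0`) and the sequence of the integer parts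
of `(x ^ p - (-1) ^ p) / (x + 1)` (real base `x > 1`).  For `β = 1 / (b + 1)` and for `x = b` these are
the numbers `(b ^ p + 1) / (b + 1)` (`p` odd), and `W s p = (b ^ p + 1) / (b + 1)` for every odd prime
`p` which does not divide `b + 1`.  We prove for almost every `β > 0` and all bases `b`, with
`c = e ^ γ / log b`, and for almost every `x > 1`, with `c = e ^ γ / log x`: for every `ε > 0`, for ALL
moduli `q`, all classes `a` prime to `q` and all `n` simultaneously,
`M s q a n = c log n / φ (q) + O (q ^ (1/2 + ε) (log n) ^ (1/2 + ε))`, with one constant.  The main term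
dominates for `q ≤ (log n) ^ (1/3 - δ)`.  In particular, for all large `q` every class prime to `q`
contains a prime `p ≤ exp (q ^ (3 + ε))` with `W s p` prime.
-/

namespace Pool.Agent.Results.MP_ce8d0c_nt.UniformProgressions

open Filter Topology MeasureTheory

/-- The product, with multiplicity, of the prime factors of `m` that are larger than `p`. -/
def roughPart (p m : ℕ) : ℕ := (m.primeFactorsList.filter (fun r => p < r)).prod

/-- The `p`-rough part of the term with the index `p`. -/
def W (s : ℕ → ℕ) (p : ℕ) : ℕ := roughPart p (s p)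

/-- The smallest integer above `β b ^ p`. -/
noncomputable def amp (b : ℕ) (β : ℝ) (p : ℕ) : ℕ := ⌊β * (b : ℝ) ^ p⌋₊ + 1

/-- The integer part of `(x ^ p - (-1) ^ p) / (x + 1)`. -/
noncomputable def base (x : ℝ) (p : ℕ) : ℕ := ⌊(x ^ p - (-1) ^ p) / (x + 1)⌋₊

open Classical in
/-- The number of primes `p ≤ n` with `p ≡ a (mod q)` for which `W s p` is prime. -/
noncomputable def M (s : ℕ → ℕ) (q a n : ℕ) : ℕ :=
  ((Finset.range (n + 1)).filter (fun p => p.Prime ∧ p ≡ a [MOD q] ∧ (W s p).Prime)).card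

/-- The law with the constant `c` in all residue classes, and the bound for the least exponent in a
residue class. -/
structure Law (s : ℕ → ℕ) (c : ℝ) : Prop where
  /-- the number of the exponents in a residue class, uniformly in the modulus -/
  uniform : ∀ ε : ℝ, 0 < ε → ∃ B : ℝ, ∀ n : ℕ, 3 ≤ n → ∀ q a : ℕ, 1 ≤ q → a.Coprime q →
    |(M s q a n : ℝ) - c * (Real.log n / Nat.totient q)| ≤
      B * ((q : ℝ) ^ (1 / 2 + ε) * Real.log n ^ (1 / 2 + ε))
  /-- the least exponent in a residue class -/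
  least : ∀ ε : ℝ, 0 < ε → ∃ Q : ℕ, ∀ q a : ℕ, Q ≤ q → a.Coprime q →
    ∃ p : ℕ, p.Prime ∧ p ≡ a [MOD q] ∧ (W s p).Prime ∧ (p : ℝ) ≤ Real.exp ((q : ℝ) ^ (3 + ε))

lemma M_eq (s : ℕ → ℕ) (q a n : ℕ) : M s q a n = Pool.Agent.TH888.R.cS (Pool.Agent.Q43.UN.Cl q a) s n := by
  classical
  unfold M Pool.Agent.TH888.R.cS
  congr 1
  ext p
  simp only [Finset.mem_filter]
  rfl

lemma law_of {s : ℕ → ℕ} {c : ℝ} (hc : 0 < c) (h : Pool.Agent.Q43.UN.UPt s c) : Law s c := by
  refine ⟨fun ε hε => ?_, fun ε hε => h.least hc hε⟩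
  obtain ⟨B, _, hB⟩ := h ε hε
  simp only [M_eq]
  exact ⟨B, hB⟩

/-- The special points. -/
lemma special {b : ℕ} (hb : 2 ≤ b) {p : ℕ} (hp : p.Prime) (hp2 : p ≠ 2) (hpd : ¬ p ∣ b + 1) :
    W (amp b (1 / ((b : ℝ) + 1))) p * (b + 1) = b ^ p + 1 ∧ W (base b) p * (b + 1) = b ^ p + 1 := by
  have hodd : Odd p := hp.odd_of_ne_two hp2
  obtain ⟨M, hM⟩ : b + 1 ∣ b ^ p + 1 := by
    have := hodd.nat_add_dvd_pow_add_pow b 1
    rwa [one_pow] at this
  have hMr : ((M : ℝ)) * (b + 1) = (b : ℝ) ^ p + 1 := by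
    have : ((b : ℝ) ^ p + 1) = (((b ^ p + 1 : ℕ)) : ℝ) := by push_cast; ring
    rw [this, hM]
    push_cast; ring
  have hb0 : (0 : ℝ) < (b : ℝ) + 1 := by positivity
  have hb2 : (2 : ℝ) ≤ b := by exact_mod_cast hb
  have hM0 : 1 ≤ M := by
    rcases Nat.eq_zero_or_pos M with h | h
    · rw [h] at hM
      simp at hM
    · exact h
  have hfl : amp b (1 / ((b : ℝ) + 1)) p = M := by
    have h0 : ⌊1 / ((b : ℝ) + 1) * (b : ℝ) ^ p⌋₊ = M - 1 := by
      rw [Nat.floor_eq_iff (by positivity), Nat.cast_sub hM0, Nat.cast_one]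
      have e : 1 / ((b : ℝ) + 1) * (b : ℝ) ^ p = M - 1 / ((b : ℝ) + 1) := by
        field_simp
        linarith
      rw [e]
      have h1 : 1 / ((b : ℝ) + 1) < 1 := by
        rw [div_lt_one hb0]; linarith
      have h2 : 0 < 1 / ((b : ℝ) + 1) := by positivity
      constructor <;> linarith
    unfold amp
    omega
  have hfl2 : base b p = M := by
    unfold base
    have e : ((b : ℝ) ^ p - (-1) ^ p) / ((b : ℝ) + 1) = M := by
      rw [hodd.neg_one_pow, div_eq_iff hb0.ne']
      linarith
    rw [e, Nat.floor_natCast]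
  have hr := Pool.Agent.H447R2.ML.rough_quot (a := (b : ℤ)) (b := -1)
    (IsCoprime.neg_right isCoprime_one_right) (by omega) (by omega) hp
    (by
      intro h
      apply hpd
      have : ((p : ℕ) : ℤ) ∣ ((b + 1 : ℕ) : ℤ) := by push_cast; simpa using h
      exact_mod_cast this) (x := (M : ℝ)) (by
        push_cast
        rw [hodd.neg_one_pow]
        have hne : (b : ℝ) - -1 ≠ 0 := by linarith
        field_simp
        linarith)
  rw [Nat.floor_natCast] at hr
  have hgeom : (∑ i ∈ Finset.range p, (b : ℤ) ^ i * (-1) ^ (p - 1 - i)) * ((b : ℤ) - -1) =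
      (b : ℤ) ^ p - (-1) ^ p := (Commute.all (b : ℤ) (-1)).geom_sum₂_mul p
  rw [← hr, hodd.neg_one_pow] at hgeom
  have h4 : ((roughPart p M : ℕ) : ℤ) * ((b : ℤ) + 1) = (b : ℤ) ^ p + 1 := by
    have h5 : (roughPart p M : ℤ) = (Pool.Agent.H305R2.roughPart p M : ℤ) := rfl
    rw [h5]
    linarith
  have h6 : roughPart p M * (b + 1) = b ^ p + 1 := by exact_mod_cast h4
  unfold W
  rw [hfl, hfl2]
  exact ⟨h6, h6⟩

lemma upt_amp (b : ℕ) (hb : 2 ≤ b) : ∀ᵐ β : ℝ, 0 < β →
    Pool.Agent.Q43.UN.UPt (amp b β) (Real.exp Real.eulerMascheroniConstant / Real.log b) := by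
  have hb1 : (1 : ℝ) < (b : ℝ) := by exact_mod_cast (by omega : 1 < b)
  have hg : ∀ p : ℕ, |(fun _ : ℕ => (1 : ℝ)) p| ≤ 1 * (1 : ℝ) ^ p := by
    intro p
    simp
  have key := Pool.Agent.Q43.UN.upt_floor (α := (b : ℝ)) (κ := 1) (C := 1)
    (g := fun _ => 1) hb1 zero_le_one hb1 hg
    (Pool.Agent.TH888.R.near_base hb zero_le_one hb1 hg)
  filter_upwards [key] with β hβ h0
  have h := hβ h0
  have e : (fun p : ℕ => ⌊β * (b : ℝ) ^ p + 1⌋₊) = amp b β := by
    funext p
    exact Nat.floor_add_one (by positivity)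
  rw [e] at h
  exact h

/-- At `β = 1 / (b + 1)` and at `x = b` the values are the generalized Wagstaff numbers.  For almost
every amplitude and all integer bases, and for almost every real base, the law holds in all residue
classes with an error term that is uniform in the modulus. -/
theorem result :
    (∀ b : ℕ, 2 ≤ b → ∀ p : ℕ, p.Prime → p ≠ 2 → ¬ p ∣ b + 1 →
      W (amp b (1 / ((b : ℝ) + 1))) p * (b + 1) = b ^ p + 1 ∧ W (base b) p * (b + 1) = b ^ p + 1) ∧
    (∀ᵐ β : ℝ, 0 < β → ∀ b : ℕ, 2 ≤ b →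
      Law (amp b β) (Real.exp Real.eulerMascheroniConstant / Real.log b)) ∧
    (∀ᵐ x : ℝ, 1 < x → Law (base x) (Real.exp Real.eulerMascheroniConstant / Real.log x)) := by
  refine ⟨fun b hb p hp hp2 hpd => special hb hp hp2 hpd, ?_, ?_⟩
  · have h : ∀ b : ℕ, ∀ᵐ β : ℝ, 2 ≤ b → 0 < β →
        Pool.Agent.Q43.UN.UPt (amp b β) (Real.exp Real.eulerMascheroniConstant / Real.log b) := by
      intro b
      by_cases hc : 2 ≤ b
      · filter_upwards [upt_amp b hc] with β hβ _
        exact hβ
      · exact Eventually.of_forall fun β h1 => absurd h1 hc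
    filter_upwards [ae_all_iff.2 h] with β hβ h0 b hb
    exact law_of (div_pos (Real.exp_pos _) (Real.log_pos (by exact_mod_cast (by omega : 1 < b))))
      (hβ b hb h0)
  · have h := Pool.Agent.Q43.UN.upt_curve (-1) (A := fun x => (x + 1)⁻¹)
      (ContDiffOn.inv (by fun_prop) fun x hx => by
        have h1 : 1 < x := by simpa using hx
        linarith)
      (fun x hx => inv_pos.2 (by
        have h1 : 1 < x := by simpa using hx
        linarith))
    filter_upwards [h] with x hx h0
    refine law_of (div_pos (Real.exp_pos _) (Real.log_pos h0)) ?_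
    have h1 := hx (by simpa using h0)
    have e : base x = fun p => ⌊(x + 1)⁻¹ * (x ^ p - (-1) ^ p)⌋₊ := by
      funext p
      unfold base
      congr 1
      rw [div_eq_inv_mul]
    rw [e]
    exact h1

end Pool.Agent.Results.MP_ce8d0c_nt.UniformProgressions
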